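import Pool.Agent.Helper70.T1

/-!
# 3-edge-colourings of subcubic graphs whose degree-3 vertices induce a bipartite graph

Let `G` be a finite connected bridgeless simple graph with all degrees at most `3`, and let `b` be a
proper 2-colouring of the graph induced by the vertices of degree `3`. Planarity is not assumed. Each of
the following conditions implies that `G` has a proper 3-edge-colouring:

* the number of vertices is even;
* `G` is not factor-critical, that is, for some vertex `v` the graph `G - v` has no perfect matching;
* some vertex `x` of degree `2` does not have two neighbours of degree `3` with different `b`.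

Proof of the first two. Reduce to graphs without a 2-edge cut which has odd sides of order at least three.
Choose a set `S` and a family `F` of disjoint odd sets, each with all its neighbours in itself or in `S`,
with `F.card - S.card` maximal and then `S` maximal. By the theorems of Tutte and Hall there is a matching
`M` with exactly `F.card - S.card` exposed vertices, all of degree two with both neighbours in `S`. As
`G - M` has no odd cycle through vertices of degree three only, a matching `N` in `G - M` covers all vertices
of degree three. An odd cycle in `G - N` would contain an exposed vertex of `M` and a vertex `a` of `S`, and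
`M` could be changed on the cycle to a matching which is as large and misses `a`, against Berge's count. So
`G - N` is bipartite of maximum degree two.

Proof of the third. If `G - x` has a perfect matching `M`, then a cycle of `G - M` off `x` passes through
vertices of degree three only, so it is even; a cycle through `x` is `x, v₁, …, v_m` with all `v_i` of degree
three and `b v₁ = b v_m`, so `m` is odd and the cycle is even too.

Authors: helper52 (first two conditions, AH/Defs, Core, Main, Final), helper70 (third condition, T1),
helper56 (TutteFam), helper33 (Cover), helper77 (Berge), helper83 (MaxPair), helper71 (Tight),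
helper3 (Contract).
-/

set_option autoImplicit false

namespace Pool.Agent.Results.MP_028d9b_co.BipartiteCubicPart

theorem result :
    ∀ (V : Type) [Fintype V] (G : SimpleGraph V) [DecidableRel G.Adj] (b : V → Bool),
      G.Connected →
      (∀ v, G.degree v ≤ 3) →
      (∀ e, ¬ G.IsBridge e) →
      (∀ u v, G.Adj u v → G.degree u = 3 → G.degree v = 3 → b u ≠ b v) →
      (Even (Fintype.card V) ∨
        (∃ v, ∀ M : G.Subgraph, M.IsMatching → M.verts ≠ {v}ᶜ) ∨
        ∃ x, G.degree x = 2 ∧ ∀ v w, G.Adj x v → G.Adj x w →
          G.degree v = 3 → G.degree w = 3 → b v = b w) →
      ∃ c : Sym2 V → Fin 3, ∀ u v w, G.Adj u v → G.Adj u w → v ≠ w →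
        c s(u, v) ≠ c s(u, w) := by
  intro V _ G _ b hc hd hbr hb h
  rcases h with h | h | ⟨x, hx, hxb⟩
  · exact Pool.Agent.Helper52.AH.final G hc hd hbr ⟨b, hb⟩ (Or.inl h)
  · exact Pool.Agent.Helper52.AH.final G hc hd hbr ⟨b, hb⟩ (Or.inr h)
  · exact Pool.Agent.Helper70.T1.t1 G hc hd hbr b hb x (by omega) hxb

end Pool.Agent.Results.MP_028d9b_co.BipartiteCubicPart
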