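import Pool.Agent.Helper37.OB.Main

/-!
# MP_028d9b_co: subdivisions of bipartite cubic graphs of full rank modulo three

`G` is a graph with all degrees `2` or `3` and at least two vertices of degree `2`. The cubic multigraph `B` which one gets by suppressing the vertices of degree `2` is
bipartite if and only if `G` has a nowhere zero flow `φ` with values in `ZMod 3`: the vertices of degree `3` are then sources (all three values are `1`) or sinks (all
three values are `-1`). If the biadjacency matrix of `B` has over `ZMod 3` only the constant vectors in its kernel, then `G` has a proper edge colouring with three colours.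

Proof. Let `δ` be a function with values `1`, `-1` at the vertices of degree `2`, with value `0` at the others, with the sum zero. The functions `c` on the edges for
which `φ c` has the divergence `δ` form an affine space over the space `K` of the functions `f` for which `φ f` is a flow. Such a `c` is a proper edge colouring if at
every vertex of degree `3` the difference of the values at two fixed edges is not zero. The differences at the sources may be prescribed in `K` (here the hypothesis on
the rank is used), and the differences at the sinks are then given by a matrix `A`, which is orthogonal, since `φ f g` is antisymmetric. By `Perm.exists_avoid` an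
orthogonal matrix over `ZMod 3` has for all forbidden values `σ`, `τ` a vector `v` with `v i ≠ σ i`, `(A v) j ≠ τ j`.
-/

set_option autoImplicit false

namespace Pool.Agent.Results.MP_028d9b_co.BipartiteFullRank

/-- The vertices of degree three with all three values `1`. -/
def Source {V : Type} [Fintype V] (G : SimpleGraph V) [DecidableRel G.Adj] (φ : V → V → ZMod 3)
    (v : V) : Prop := G.degree v = 3 ∧ ∀ w, G.Adj v w → φ v w = 1

theorem result (V : Type) [Fintype V] (G : SimpleGraph V) [DecidableRel G.Adj]
    (hdeg : ∀ v, G.degree v = 2 ∨ G.degree v = 3)
    (h2 : ∃ u v, u ≠ v ∧ G.degree u = 2 ∧ G.degree v = 2)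
    (φ : V → V → ZMod 3) (hanti : ∀ v w, φ w v = - φ v w) (hne : ∀ v w, G.Adj v w → φ v w ≠ 0)
    (hsum : ∀ v, ∑ w ∈ G.neighborFinset v, φ v w = 0)
    (hrank : ∀ μ : V → ZMod 3,
      (∀ v w, G.Adj v w → ¬ Source G φ v → ¬ Source G φ w → μ v = μ w) →
      (∀ x, Source G φ x → ∑ w ∈ G.neighborFinset x, μ w = 0) →
      ∀ v w, ¬ Source G φ v → ¬ Source G φ w → μ v = μ w) :
    ∃ c : Sym2 V → Fin 3, ∀ u v w, G.Adj u v → G.Adj u w → v ≠ w → c s(u, v) ≠ c s(u, w) := by
  classical
  have hφ : Helper37.OB.NZFlow G φ := ⟨hanti, hne, hsum⟩
  refine Helper37.OB.main hφ hdeg ?_ h2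
  intro f hf hsink
  have h11 : ¬ (-1 : ZMod 3) = 1 := by decide
  have hnbr : ∀ v, ∃ w, G.Adj v w := by
    intro v
    have : 0 < G.degree v := by rcases hdeg v with h | h <;> omega
    exact (G.degree_pos_iff_exists_adj v).1 this
  choose nb hnb using hnbr
  -- `f` is constant at every vertex which is not a source
  have hconst : ∀ v, ¬ Source G φ v → ∀ w w', G.Adj v w → G.Adj v w' →
      f s(v, w) = f s(v, w') := by
    intro v hv w w' hw hw'
    rcases hdeg v with h | h
    · by_cases hww : w = w'
      · rw [hww]
      · have hN : G.neighborFinset v = {w, w'} := by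
          symm
          apply Finset.eq_of_subset_of_card_le
          · intro z hz
            rw [Finset.mem_insert, Finset.mem_singleton] at hz
            rcases hz with rfl | rfl <;> simpa
          · rw [G.card_neighborFinset_eq_degree, h, Finset.card_pair hww]
        have e1 := hf v
        have e2 := hsum v
        unfold Helper37.OB.dv at e1
        rw [hN, Finset.sum_insert (by simp [hww]), Finset.sum_singleton] at e1 e2
        have e3 : φ v w * (f s(v, w) - f s(v, w')) = 0 := by
          linear_combination e1 - (f s(v, w')) * e2
        exact sub_eq_zero.1 ((mul_eq_zero.1 e3).resolve_left (hne v w hw))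
    · rcases Helper37.OB.source_or_sink hφ h with hs | hs
      · exact absurd hs hv
      · exact hsink v hs w w' hw hw'
  have hkey := hrank (fun v => f s(v, nb v)) ?_ ?_
  · intro v w v' w' hvw hvw'
    -- every edge has an end which is not a source
    have hend : ∀ p q, G.Adj p q → ∃ z, ¬ Source G φ z ∧ f s(p, q) = f s(z, nb z) := by
      intro p q hpq
      by_cases hp : Source G φ p
      · have hq : ¬ Source G φ q := by
          intro hq
          have h1 := hp.2 q hpq
          have h2 := hq.2 p hpq.symm
          rw [hanti p q, h1] at h2
          exact h11 h2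
        exact ⟨q, hq, by rw [Sym2.eq_swap]; exact hconst q hq p (nb q) hpq.symm (hnb q)⟩
      · exact ⟨p, hp, hconst p hp q (nb p) hpq (hnb p)⟩
    obtain ⟨z, hz, e1⟩ := hend v w hvw
    obtain ⟨z', hz', e2⟩ := hend v' w' hvw'
    rw [e1, e2]
    exact hkey z z' hz hz'
  · intro v w hvw hv hw
    have e1 := hconst v hv w (nb v) hvw (hnb v)
    have e2 := hconst w hw v (nb w) hvw.symm (hnb w)
    change f s(v, nb v) = f s(w, nb w)
    rw [← e1, ← e2, Sym2.eq_swap]
  · intro x hx
    have e1 := hf x
    unfold Helper37.OB.dv at e1
    rw [← e1]
    refine Finset.sum_congr rfl fun w hw => ?_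
    have hxw : G.Adj x w := by simpa using hw
    have hws : ¬ Source G φ w := by
      intro hs
      have h1 := hx.2 w hxw
      have h2 := hs.2 x hxw.symm
      rw [hanti x w, h1] at h2
      exact h11 h2
    rw [hx.2 w hxw, one_mul, show s(x, w) = s(w, x) from Sym2.eq_swap]
    exact hconst w hws (nb w) x (hnb w) hxw.symm

end Pool.Agent.Results.MP_028d9b_co.BipartiteFullRank
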