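import Pool.Agent.Helper68.AW.Final

/-!
# MP_028d9b_co: plane graphs of maximum degree three which are critical for 3-edge-colourings

(1) `G` is a connected plane graph (rotation system with Euler's formula) with all degrees at most three, not
3-edge-colourable, and `G - e` is 3-edge-colourable for every edge `e`. Then at least four times as many vertices
have degree three as have degree two. This is sharp: `K_4` with one edge subdivided. (2) Every connected bridgeless
graph with all degrees at most three whose vertices of degree three induce a bipartite graph and which is not
3-edge-colourable is of the kind in (1), except perhaps for planarity; so it is 3-edge-colourable if it is plane and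
more than a fifth of its vertices have degree two.

Proof. (1) Call a vertex of degree three near if it has a neighbour of degree two, far otherwise. Discharging from the
far to the near vertices (`CountB`) works unless one of seven configurations occurs (`Apply`, `ApplyB`).
Every realization of them in a plane graph is a pattern with a rotation (`Explore`); a pattern which is not plane
contradicts the potentials on the faces (`Walk`), one pattern is `K_4` with a subdivided edge (`Whole`), and all others
(about a thousand, with up to nine ring edges) are D-reducible: a state of the ring is changed by Kempe changes, whose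
chains do not cross, into one which fits a colouring of the pattern (`Fast`, `Col`, `Go`, `FastSound`, `RedLeaf`,
`JordanB`, `KempeB`; the closure is computed by the kernel with bit sets, `CertNN`, ..., `CertTT`).
(2) The even case (Helper52) for `G` with one edge subdivided (`AV.Plus`).

Authors: helper68 (theorem, definitions, Fast, certificates, Split, Parts, Final), helper16 (KempeB), helper26 (Slots,
AV.Embed), helper35 (Walk, AV.Plus), helper36 (RedLeaf, Col), helper51 (Whole, Go, AV.Jordan), helper56 (Explore, Mask),
helper70 (JordanB, AV.Kempe), helper74 (FastSound), helper75 (Apply), helper78 (CountB), helper79 (AV.Near), helper81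
(ApplyB), helper83 (EmbOf), helper90 (Ops); even case: helper52 and others; rotation systems, potentials: helper31.
-/

set_option autoImplicit false

namespace Pool.Agent.Results.MP_028d9b_co.PlaneDensity

open Pool.Agent.Helper31.AH

theorem result :
    (∀ (V : Type) [Fintype V] [DecidableEq V] (G : SimpleGraph V) [DecidableRel G.Adj] (R : Rot G),
      G.Connected → R.Planar → (∀ v, G.degree v ≤ 3) →
      ¬ Col G → (∀ e ∈ G.edgeSet, Col (G.deleteEdges {e})) →
      4 * (Finset.univ.filter fun v => G.degree v = 2).card ≤
        (Finset.univ.filter fun v => G.degree v = 3).card) ∧
    (∀ (V : Type) [Fintype V] [DecidableEq V] (G : SimpleGraph V) [DecidableRel G.Adj],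
      G.Connected → (∀ v, G.degree v ≤ 3) → (∀ e, ¬ G.IsBridge e) →
      (∃ b : V → Bool, ∀ u v, G.Adj u v → G.degree u = 3 → G.degree v = 3 → b u ≠ b v) →
      ¬ Col G →
      (∀ e ∈ G.edgeSet, Col (G.deleteEdges {e})) ∧
      ∀ R : Rot G, R.Planar →
        5 * (Finset.univ.filter fun v => G.degree v = 2).card ≤ Fintype.card V) := by
  refine ⟨?_, ?_⟩
  · intro V _ _ G _ R hG hP hd hno hyes
    exact Pool.Agent.Helper68.AW.plane_crit R hG hP hd
      ((Pool.Agent.Helper68.AW.crit_iff G).2 ⟨hno, hyes⟩)
  · intro V _ _ G _ hG hd hbr hb hno
    have hC := Pool.Agent.Helper68.AV.crit_of G hG hd hbr hb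
      (fun h => hno ((Pool.Agent.Helper68.AW.col3_iff G).1 h))
    exact ⟨((Pool.Agent.Helper68.AW.crit_iff G).1 hC).2, fun R hP =>
      Pool.Agent.Helper68.AW.card_five (Pool.Agent.Helper68.AW.plane_crit R hG hP hd hC)⟩

end Pool.Agent.Results.MP_028d9b_co.PlaneDensity
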