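import Pool.Agent.Helper31.AH.Arith

/-!
# MP_028d9b_co: the Tait colourings of a plane subcubic graph which is not 3-edge-colourable

`G` is a connected plane graph (rotation system, Euler's formula) with degrees `2` and `3`. Its Tait colourings are the proper edge colourings with three colours of the
cubic multigraph which one gets by suppressing the vertices of degree `2`. If `G` itself has no proper edge colouring with three colours, then the enumerator of the Tait
colourings by the numbers of the vertices of degree `2` on the edges of the three colours vanishes on the plane `x 0 + x 1 + x 2 = 0`, so `18` divides `(k - 1) N`, where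
`k` is the number of the vertices of degree `2` and `N` the number of the Tait colourings.

Proof. State sum: Levi-Civita symbols at the vertices of degree `3`, a matrix `Y` at the vertices of degree `2`; it is invariant under rotations (`Inv`). If `Y` has
zeros on the diagonal and `G` is not colourable, every term vanishes. A diagonal matrix with trace `0` is conjugate to such a `Y` by a rotation (`Mat`). In a plane graph
the product of the Levi-Civita symbols is the same for all Tait colourings (`Pot`, `Sign`), so the state sum of a diagonal matrix is up to the sign the enumerator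
(`Eval`). The congruence follows from `(-2) ^ m = 1 - 3 m` modulo `9` and the free action of the permutations of the colours (`Sym`, `Arith`).
-/

set_option autoImplicit false

namespace Pool.Agent.Results.MP_028d9b_co.TaitEnumerator

open Pool.Agent.Helper31.AH

theorem result (V : Type) [Fintype V] [DecidableEq V] (G : SimpleGraph V) [DecidableRel G.Adj]
    (R : Rot G) (hG : G.Connected) (hP : R.Planar)
    (hdeg : ∀ v, G.degree v = 2 ∨ G.degree v = 3) (h3 : ∃ v, G.degree v = 3)
    (hcol : ¬ Col G) :
    (∀ x : Fin 3 → ℝ, x 0 + x 1 + x 2 = 0 →
      ∑ᶠ c : {c : G.edgeSet → Fin 3 // Tait c}, ∏ i, x i ^ mc c.1 i = 0) ∧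
    (18 : ℤ) ∣ ((k2 G : ℤ) - 1) * (Nat.card {c : G.edgeSet → Fin 3 // Tait c} : ℤ) ∧
    (Nat.card {c : G.edgeSet → Fin 3 // Tait c} = 6 →
      ∀ c : G.edgeSet → Fin 3, Tait c →
        ∃ (j : ℕ) (i : Fin 3), ∀ i', mc c i' = if i' = i then j + 1 else j) := by
  classical
  refine ⟨fun x hx => ?_, main R hG hP hdeg h3 hcol⟩
  rw [← sum_tait R hG hP hdeg hcol x hx, finsum_eq_sum_of_fintype]
  exact (Finset.sum_subtype (Finset.univ.filter Tait)
    (fun c => (Finset.mem_filter.trans (and_iff_right (Finset.mem_univ c))))
    (fun c => ∏ i, x i ^ mc c i)).symm

end Pool.Agent.Results.MP_028d9b_co.TaitEnumerator
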